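import Pool.Agent.W922.GY2.Stm

/-! Project GY2, part ESC: basic properties of the escape norm. -/

set_option autoImplicit false

namespace Pool.Agent.W700.GY2

open Filter Topology MeasureTheory Set Pool.Agent.W922.GY2
open scoped Pointwise

/-- the set whose infimum is the escape norm -/
def EE {G : Type} [Group G] (U : Set G) (g : G) : Set ℝ :=
  {r : ℝ | ∃ n : ℕ, (∀ i ≤ n, g ^ i ∈ U) ∧ r = 1 / ((n : ℝ) + 1)}

theorem esc_eq {G : Type} [Group G] (U : Set G) (g : G) : esc U g = sInf (EE U g) := rfl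

theorem EE_pos {G : Type} [Group G] (U : Set G) (g : G) : ∀ r ∈ EE U g, 0 ≤ r := by
  rintro r ⟨n, -, rfl⟩
  positivity

theorem EE_bdd {G : Type} [Group G] (U : Set G) (g : G) : BddBelow (EE U g) :=
  ⟨0, fun r hr => EE_pos U g r hr⟩

theorem EE_one {G : Type} [Group G] (U : Set G) (h1 : (1 : G) ∈ U) (g : G) :
    (1 : ℝ) ∈ EE U g := by
  refine ⟨0, fun i hi => ?_, by norm_num⟩
  have : i = 0 := by omega
  subst this
  simpa using h1

theorem EE_inv {G : Type} [Group G] (U : Set G) (hinv : ∀ g ∈ U, g⁻¹ ∈ U) (g : G) :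
    EE U g ⊆ EE U g⁻¹ := by
  rintro r ⟨n, hn, rfl⟩
  refine ⟨n, fun i hi => ?_, rfl⟩
  rw [inv_pow]
  exact hinv _ (hn i hi)

theorem t_ESC : Pool.Agent.W922.GY2.S_ESC := by
  intro G _ _ _ _ U hU
  have h1 : (1 : G) ∈ U := mem_of_mem_nhds hU.nhd
  have hnn : ∀ g, 0 ≤ esc U g := fun g =>
    le_csInf ⟨1, EE_one U h1 g⟩ fun r hr => EE_pos U g r hr
  have h2 : ∀ (g : G) (n : ℕ), (∀ i ≤ n, g ^ i ∈ U) → esc U g ≤ 1 / ((n : ℝ) + 1) :=
    fun g n hn => csInf_le (EE_bdd U g) ⟨n, hn, rfl⟩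
  have h3 : ∀ (g : G) (n : ℕ), n * esc U g < 1 → ∀ i ≤ n, g ^ i ∈ U := by
    intro g n hn i hi
    rcases Nat.eq_zero_or_pos n with h0 | h0
    · have : i = 0 := by omega
      subst this
      simpa using h1
    · have hn0 : (0 : ℝ) < n := by exact_mod_cast h0
      have hlt : esc U g < 1 / (n : ℝ) := by
        rw [lt_div_iff₀ hn0]
        linarith [mul_comm (n : ℝ) (esc U g)]
      obtain ⟨r, ⟨m, hm, rfl⟩, hr⟩ := exists_lt_of_csInf_lt ⟨1, EE_one U h1 g⟩ hlt
      have hm1 : (0 : ℝ) < (m : ℝ) + 1 := by positivity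
      have h4 : (n : ℝ) < (m : ℝ) + 1 := by
        rw [div_lt_div_iff₀ hm1 hn0] at hr
        linarith
      have h5 : n ≤ m := by
        have : n < m + 1 := by exact_mod_cast h4
        omega
      exact hm i (hi.trans h5)
  refine ⟨fun g => ⟨hnn g, csInf_le (EE_bdd U g) (EE_one U h1 g)⟩, h2, h3, ?_, ?_, ?_⟩
  · intro g
    have : EE U g⁻¹ = EE U g := by
      refine Subset.antisymm ?_ (EE_inv U hU.inv g)
      have h := EE_inv U hU.inv g⁻¹
      rwa [inv_inv] at h
    rw [esc_eq, esc_eq, this]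
  · intro g
    constructor
    · intro h
      refine hU.nss g fun n => h3 g n ?_ n le_rfl
      rw [h]
      simp
    · rintro rfl
      refine le_antisymm ?_ (hnn 1)
      refine le_of_forall_pos_lt_add fun ε hε => ?_
      obtain ⟨n, hn⟩ := exists_nat_one_div_lt hε
      have := h2 1 n fun i _ => by simpa using h1
      linarith
  · intro ε hε
    obtain ⟨n, hn⟩ := exists_nat_one_div_lt hε
    have h6 : ∀ᶠ g in 𝓝 (1 : G), ∀ i ∈ Finset.range (n + 1), g ^ i ∈ U := by
      rw [Filter.eventually_all_finset]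
      intro i _
      have : Tendsto (fun g : G => g ^ i) (𝓝 1) (𝓝 1) :=
        (continuous_pow i).tendsto' 1 1 (one_pow i)
      exact this.eventually hU.nhd
    refine h6.mono fun g hg => (h2 g n fun i hi => hg i ?_).trans_lt hn
    exact Finset.mem_range.2 (by omega)

end Pool.Agent.W700.GY2
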