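import Pool.Agent.W922.GY2.Stm

/-! Project GY2, part NU: the norm obtained from the escape norm. -/

set_option autoImplicit false

namespace Pool.Agent.W700.GY2

open Filter Topology MeasureTheory Set Pool.Agent.W922.GY2
open scoped Pointwise

/-- the set of costs whose infimum is the norm -/
def NN {G : Type} [Group G] (U : Set G) (g : G) : Set ℝ :=
  {r : ℝ | ∃ L : List G, L.prod = g ∧ r = cost (esc U) L}

theorem nu_eq {G : Type} [Group G] (U : Set G) (g : G) : nu U g = sInf (NN U g) := rfl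

theorem cost_nonneg {G : Type} (ℓ : G → ℝ) (h : ∀ g, 0 ≤ ℓ g) (L : List G) : 0 ≤ cost ℓ L := by
  unfold cost
  refine List.sum_nonneg fun x hx => ?_
  obtain ⟨g, -, rfl⟩ := List.mem_map.1 hx
  exact h g

theorem cost_append {G : Type} (ℓ : G → ℝ) (L L' : List G) :
    cost ℓ (L ++ L') = cost ℓ L + cost ℓ L' := by
  simp [cost]

/-- repetition of a word -/
def rep {G : Type} (L : List G) : ℕ → List G
  | 0 => []
  | n + 1 => L ++ rep L n

theorem rep_prod {G : Type} [Group G] (L : List G) (n : ℕ) : (rep L n).prod = L.prod ^ n := by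
  induction n with
  | zero => simp [rep]
  | succ n ih => rw [rep, List.prod_append, ih, pow_succ']

theorem rep_cost {G : Type} (ℓ : G → ℝ) (L : List G) (n : ℕ) :
    cost ℓ (rep L n) = n * cost ℓ L := by
  induction n with
  | zero => simp [rep, cost]
  | succ n ih =>
    rw [rep, cost_append, ih]
    push_cast
    ring

theorem t_NU (hE : Pool.Agent.W922.GY2.S_ESC) : Pool.Agent.W922.GY2.S_NU := by
  intro G _ _ _ _ U M hU hM hPP
  obtain ⟨hb, hle, -, hinv, -, -⟩ := hE G U hU
  have h1 : (1 : G) ∈ U := mem_of_mem_nhds hU.nhd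
  have hc : ∀ L : List G, 0 ≤ cost (esc U) L := cost_nonneg _ fun g => (hb g).1
  have hbdd : ∀ g, BddBelow (NN U g) := fun g => ⟨0, by
    rintro r ⟨L, -, rfl⟩
    exact hc L⟩
  have hone : ∀ g, esc U g ∈ NN U g := fun g => ⟨[g], by simp, by simp [cost]⟩
  have hnn : ∀ g, 0 ≤ nu U g := fun g => le_csInf ⟨_, hone g⟩ (by
    rintro r ⟨L, -, rfl⟩
    exact hc L)
  have hsub : ∀ g, NN U g ⊆ NN U g⁻¹ := by
    rintro g r ⟨L, rfl, rfl⟩
    refine ⟨(L.map fun x => x⁻¹).reverse, (List.prod_inv_reverse L).symm, ?_⟩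
    unfold cost
    rw [List.map_reverse, List.sum_reverse, List.map_map]
    congr 1
    refine List.map_congr_left fun g _ => ?_
    simp [hinv]
  have hkey : ∀ (g : G) (n : ℕ), n * (M * nu U g) < 1 → ∀ i ≤ n, g ^ i ∈ U := by
    intro g n hn i hi
    rcases Nat.eq_zero_or_pos i with h0 | h0
    · subst h0
      simpa using h1
    · have hi0 : (0 : ℝ) < i := by exact_mod_cast h0
      have hiM : (0 : ℝ) < i * M := by positivity
      have hin : (i : ℝ) ≤ n := by exact_mod_cast hi
      have h2 : (i : ℝ) * (M * nu U g) < 1 :=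
        (mul_le_mul_of_nonneg_right hin (mul_nonneg hM.le (hnn g))).trans_lt hn
      have h3 : nu U g < 1 / (i * M) := by
        rw [lt_div_iff₀ hiM]
        linarith [mul_comm (nu U g) (i * M), mul_assoc (i : ℝ) M (nu U g)]
      obtain ⟨r, ⟨L, hL, rfl⟩, hr⟩ := exists_lt_of_csInf_lt ⟨_, hone g⟩ h3
      have h4 : (rep L i).prod ∈ U := by
        refine hPP _ ?_
        rw [rep_cost]
        rw [lt_div_iff₀ hiM] at hr
        calc M * (i * cost (esc U) L) = cost (esc U) L * (i * M) := by ring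
          _ < 1 := hr
      rwa [rep_prod, hL] at h4
  refine ⟨?_, hnn, ?_, ?_, fun g => csInf_le (hbdd g) (hone g), ?_⟩
  · refine le_antisymm ?_ (hnn 1)
    exact csInf_le (hbdd 1) ⟨[], by simp, by simp [cost]⟩
  · intro g
    have : NN U g⁻¹ = NN U g := by
      refine Subset.antisymm ?_ (hsub g)
      have h := hsub g⁻¹
      rwa [inv_inv] at h
    rw [nu_eq, nu_eq, this]
  · intro g h
    have h2 : ∀ r ∈ NN U g, nu U (g * h) - nu U h ≤ r := by
      rintro r ⟨L, rfl, rfl⟩
      have h3 : nu U (L.prod * h) - cost (esc U) L ≤ nu U h := by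
        refine le_csInf ⟨_, hone h⟩ ?_
        rintro r ⟨L', rfl, rfl⟩
        have h4 : nu U (L.prod * L'.prod) ≤ cost (esc U) (L ++ L') :=
          csInf_le (hbdd _) ⟨L ++ L', List.prod_append, rfl⟩
        rw [cost_append] at h4
        linarith
      linarith
    have h5 : nu U (g * h) - nu U h ≤ nu U g := le_csInf ⟨_, hone g⟩ h2
    linarith
  · intro g
    rcases (mul_nonneg hM.le (hnn g)).eq_or_lt with h0 | h0
    · rw [← h0]
      refine le_of_forall_pos_lt_add fun ε hε => ?_
      obtain ⟨n, hn⟩ := exists_nat_one_div_lt hε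
      have h2 : esc U g ≤ 1 / ((n : ℝ) + 1) := hle g n (hkey g n (by rw [← h0]; simp))
      linarith
    · set a := M * nu U g with ha
      have h3 : 0 < 1 / a := by positivity
      have h4 : 0 < ⌈1 / a⌉₊ := Nat.ceil_pos.2 h3
      obtain ⟨n, hn⟩ : ∃ n, ⌈1 / a⌉₊ = n + 1 := ⟨⌈1 / a⌉₊ - 1, by omega⟩
      have h5 : (n : ℝ) < 1 / a := by
        rw [← Nat.lt_ceil, hn]
        exact Nat.lt_succ_self n
      have h6 : 1 / a ≤ (n : ℝ) + 1 := by
        have := Nat.le_ceil (1 / a)
        rw [hn] at this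
        exact_mod_cast this
      have h7 : (n : ℝ) * a < 1 := by rwa [lt_div_iff₀ h0] at h5
      have h8 := hle g n (hkey g n h7)
      refine h8.trans ?_
      rw [div_le_iff₀ h0] at h6
      rw [div_le_iff₀ (by positivity)]
      linarith [mul_comm a ((n : ℝ) + 1)]

end Pool.Agent.W700.GY2
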